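import Mathlib

/-!
# Rearranging the negative part of a signed permutation inside blocks

Signed permutations are treated as permutations `w` of `ℤ` with `w (-x) = -w x` that fix every
`x` with `n < |x|`.
-/

namespace Pool.Agent.Q284.InvB

open Finset

/-- signed permutation of size `n` as a permutation of `ℤ` -/
def IsB (n : ℕ) (w : Equiv.Perm ℤ) : Prop :=
  (∀ x, w (-x) = -(w x)) ∧ ∀ x, (n : ℤ) < |x| → w x = x

variable {n : ℕ} {w w' w'' : Equiv.Perm ℤ} {b : ℤ → ℕ} {s : ℤ}

theorem IsB.zero (h : IsB n w) : w 0 = 0 := by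
  have := h.1 0
  simp at this
  omega

theorem IsB.ne (h : IsB n w) {x : ℤ} (hx : x ≠ 0) : w x ≠ 0 := by
  intro h0
  apply hx
  apply w.injective
  rw [h0, h.zero]

theorem IsB.inv (h : IsB n w) : IsB n w⁻¹ := by
  constructor
  · intro x
    rw [Equiv.Perm.inv_eq_iff_eq, h.1]
    simp
  · intro x hx
    rw [Equiv.Perm.inv_eq_iff_eq, h.2 x hx]

theorem IsB.mul (h : IsB n w) (h' : IsB n w') : IsB n (w * w') := by
  constructor
  · intro x
    rw [Equiv.Perm.mul_apply, Equiv.Perm.mul_apply, h'.1, h.1]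
  · intro x hx
    rw [Equiv.Perm.mul_apply, h'.2 x hx, h.2 x hx]

theorem IsB.le (h : IsB n w) {x : ℤ} (hx : 0 < x) (hw : w x < 0) : x ≤ n := by
  by_contra hlt
  push Not at hlt
  have := h.2 x (by rw [abs_of_pos hx]; exact hlt)
  omega

/-- signed transposition -/
def tr (i j : ℤ) : Equiv.Perm ℤ := Equiv.swap i j * Equiv.swap (-i) (-j)

theorem tr_apply {i j : ℤ} (hi : 0 < i) (hj : 0 < j) (x : ℤ) :
    tr i j x = if x = i then j else if x = j then i else if x = -i then -j else
      if x = -j then -i else x := by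
  unfold tr
  rw [Equiv.Perm.mul_apply]
  simp only [Equiv.swap_apply_def]
  split_ifs <;> omega

theorem tr_isB {i j : ℤ} (hi : 0 < i) (hj : 0 < j) (hin : i ≤ n) (hjn : j ≤ n) :
    IsB n (tr i j) := by
  constructor
  · intro x
    rw [tr_apply hi hj, tr_apply hi hj]
    split_ifs <;> omega
  · intro x hx
    rw [tr_apply hi hj]
    have := lt_abs.1 hx
    split_ifs <;> omega

/-- The number of `i` in block `p` with `w i` negative and `-w i` in block `q`. -/
noncomputable def cc (n : ℕ) (b : ℤ → ℕ) (w : Equiv.Perm ℤ) (p q : ℕ) : ℕ :=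
  ((Icc (1 : ℤ) n).filter (fun i => w i < 0 ∧ b i = p ∧ b (-(w i)) = q)).card

/-- same positive part, same signs, same cell counts -/
structure Rel (n : ℕ) (b : ℤ → ℕ) (w w' : Equiv.Perm ℤ) : Prop where
  pos : ∀ i, 0 < i → 0 < w i → w' i = w i
  neg : ∀ i, 0 < i → w i < 0 → w' i < 0
  cell : ∀ p q, cc n b w p q = cc n b w' p q

theorem Rel.symm (hw : IsB n w) (h : Rel n b w w') : Rel n b w' w := by
  refine ⟨fun i hi hwi => ?_, fun i hi hwi => ?_, fun p q => (h.cell p q).symm⟩
  · rcases lt_trichotomy (w i) 0 with h1 | h1 | h1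
    · have := h.neg i hi h1; omega
    · exact absurd h1 (hw.ne (by omega))
    · rw [h.pos i hi h1]
  · rcases lt_trichotomy (w i) 0 with h1 | h1 | h1
    · exact h1
    · exact absurd h1 (hw.ne (by omega))
    · have := h.pos i hi h1; omega

theorem Rel.trans (h : Rel n b w w') (h' : Rel n b w' w'') : Rel n b w w'' := by
  refine ⟨fun i hi hwi => ?_, fun i hi hwi => h'.neg i hi (h.neg i hi hwi), fun p q => ?_⟩
  · rw [h'.pos i hi (by rw [h.pos i hi hwi]; exact hwi), h.pos i hi hwi]
  · rw [h.cell, h'.cell]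

theorem Rel.refl : Rel n b w w := ⟨fun _ _ _ => rfl, fun _ _ h => h, fun _ _ => rfl⟩

/-- On each block the negative part is monotone: the absolute values are increasing for
`s = 1`, decreasing for `s = -1`. -/
def Mon (b : ℤ → ℕ) (s : ℤ) (w : Equiv.Perm ℤ) : Prop :=
  ∀ i j, 0 < i → i < j → w i < 0 → w j < 0 → b i = b j → 0 < s * (w i - w j)

/-! ### Uniqueness -/

theorem uniq_aux (hs : s = 1 ∨ s = -1) (hb : Monotone b) (hw : IsB n w) (hw' : IsB n w')
    (h : Rel n b w w') (hm : Mon b s w') (hm' : Mon b s w'⁻¹) {i : ℤ} (hi : 0 < i)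
    (hmin : ∀ k, 0 < k → k < i → w k = w' k) (hne : 0 < s * (w i - w' i)) : False := by
  have hwi : w i < 0 := by
    rcases lt_trichotomy (w i) 0 with h1 | h1 | h1
    · exact h1
    · exact absurd h1 (hw.ne (by omega))
    · rw [h.pos i hi h1] at hne; simp at hne
  have hwi' : w' i < 0 := h.neg i hi hwi
  have hin : i ≤ n := hw.le hi hwi
  -- the position j with w' j = w i
  obtain ⟨j, hj⟩ : ∃ j, w' j = w i := w'.surjective _
  have hjinv : w'⁻¹ (w i) = j := by rw [Equiv.Perm.inv_eq_iff_eq, hj]
  have hj0 : 0 < j := by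
    by_contra hj0
    push Not at hj0
    have hjne : j ≠ 0 := by
      rintro rfl
      rw [hw'.zero] at hj
      omega
    -- then w' (-j) = -w i > 0, so w (-j) > 0 and w (-j) = -w i = w (-i)
    have h1 : w' (-j) = -(w i) := by rw [hw'.1, hj]
    have h2 : w (-j) = w' (-j) := (h.symm hw).pos (-j) (by omega) (by omega)
    rw [h1, ← hw.1] at h2
    have := w.injective h2
    omega
  have hij : i < j := by
    by_contra hle
    push Not at hle
    rcases hle.lt_or_eq with h1 | h1
    · have := hmin j hj0 h1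
      rw [hj] at this
      have := w.injective this
      omega
    · subst h1
      rw [hj] at hne
      simp at hne
  have hjneg : w' j < 0 := by rw [hj]; exact hwi
  have hsne : 0 < s * (w' j - w' i) := by rw [hj]; exact hne
  have hbij : b i ≠ b j := by
    intro hbe
    have := hm i j hi hij hwi' hjneg hbe
    nlinarith
  -- blocks of the values
  have hinv_i : w'⁻¹ (-(w' i)) = -i := by
    rw [Equiv.Perm.inv_eq_iff_eq, hw'.1]
  have hinv_j : w'⁻¹ (-(w i)) = -j := by
    rw [Equiv.Perm.inv_eq_iff_eq, hw'.1, hj]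
  have hbv : b (-(w' i)) ≠ b (-(w i)) := by
    intro hbe
    rcases hs with rfl | rfl
    · have h1 : w' i < w i := by linarith
      have := hm' (-(w i)) (-(w' i)) (by omega) (by omega) (by rw [hinv_j]; omega)
        (by rw [hinv_i]; omega) hbe.symm
      rw [hinv_i, hinv_j] at this
      linarith
    · have h1 : w i < w' i := by linarith
      have := hm' (-(w' i)) (-(w i)) (by omega) (by omega) (by rw [hinv_i]; omega)
        (by rw [hinv_j]; omega) hbe
      rw [hinv_i, hinv_j] at this
      linarith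
  -- strict inequality of blocks for all later positions in the block of i
  have hlater : ∀ k, i ≤ k → w' k < 0 → b k = b i → b (-(w' k)) ≠ b (-(w i)) := by
    intro k hik hk hbk
    rcases hs with rfl | rfl
    · have h1 : w' i < w i := by linarith
      have h2 : b (-(w i)) ≤ b (-(w' i)) := hb (by omega)
      have h3 : w' k ≤ w' i := by
        rcases hik.lt_or_eq with h3 | h3
        · have := hm i k hi h3 hwi' hk hbk.symm; linarith
        · rw [h3]
      have h4 : b (-(w' i)) ≤ b (-(w' k)) := hb (by omega)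
      omega
    · have h1 : w i < w' i := by linarith
      have h2 : b (-(w' i)) ≤ b (-(w i)) := hb (by omega)
      have h3 : w' i ≤ w' k := by
        rcases hik.lt_or_eq with h3 | h3
        · have := hm i k hi h3 hwi' hk hbk.symm; linarith
        · rw [h3]
      have h4 : b (-(w' k)) ≤ b (-(w' i)) := hb (by omega)
      omega
  -- counting
  have hcell := h.cell (b i) (b (-(w i)))
  unfold cc at hcell
  have hsub : (Icc (1 : ℤ) n).filter (fun k => w' k < 0 ∧ b k = b i ∧ b (-(w' k)) = b (-(w i)))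
      ⊂ (Icc (1 : ℤ) n).filter (fun k => w k < 0 ∧ b k = b i ∧ b (-(w k)) = b (-(w i))) := by
    rw [Finset.ssubset_iff_of_subset]
    · refine ⟨i, ?_, ?_⟩
      · rw [mem_filter, mem_Icc]
        exact ⟨⟨by omega, hin⟩, hwi, rfl, rfl⟩
      · rw [mem_filter]
        rintro ⟨_, h1, h2, h3⟩
        exact hlater i le_rfl h1 h2 h3
    · intro k hk
      rw [mem_filter, mem_Icc] at hk ⊢
      obtain ⟨⟨hk1, hk2⟩, hk3, hk4, hk5⟩ := hk
      have hki : k < i := by
        by_contra hle
        push Not at hle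
        exact hlater k hle hk3 hk4 hk5
      rw [hmin k (by omega) hki]
      exact ⟨⟨hk1, hk2⟩, hk3, hk4, hk5⟩
  have := Finset.card_lt_card hsub
  omega

theorem uniq (hs : s = 1 ∨ s = -1) (hb : Monotone b) (hw : IsB n w) (hw' : IsB n w')
    (h : Rel n b w w') (hm : Mon b s w) (hm' : Mon b s w⁻¹) (hm1 : Mon b s w')
    (hm1' : Mon b s w'⁻¹) : w = w' := by
  by_contra hne
  have hex : ∃ k : ℕ, 0 < k ∧ w k ≠ w' k := by
    by_contra hno
    push Not at hno
    apply hne
    ext x
    rcases lt_trichotomy x 0 with h1 | h1 | h1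
    · obtain ⟨m, hm⟩ := Int.eq_ofNat_of_zero_le (show 0 ≤ -x by omega)
      have := hno m (by omega)
      have hx : x = -(m : ℤ) := by omega
      rw [hx, hw.1, hw'.1, this]
    · subst h1; rw [hw.zero, hw'.zero]
    · obtain ⟨m, hm⟩ := Int.eq_ofNat_of_zero_le (show 0 ≤ x by omega)
      rw [hm]
      exact hno m (by omega)
  classical
  have h1 := Nat.find_spec hex
  have h2 : ∀ k : ℤ, 0 < k → k < (Nat.find hex : ℕ) → w k = w' k := by
    intro k hk hlt
    obtain ⟨m, hm⟩ := Int.eq_ofNat_of_zero_le (show 0 ≤ k by omega)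
    subst hm
    have := Nat.find_min hex (m := m) (by exact_mod_cast hlt)
    push Not at this
    exact this (by exact_mod_cast hk)
  set i := Nat.find hex with hi
  have hi0 : (0 : ℤ) < i := by exact_mod_cast h1.1
  rcases lt_or_gt_of_ne (show s * (w i - w' i) ≠ 0 by
    intro h0
    rcases hs with rfl | rfl
    · apply h1.2; linarith
    · apply h1.2; linarith) with h3 | h3
  · exact uniq_aux hs hb hw' hw (h.symm hw) hm hm' hi0 (fun k hk hlt => (h2 k hk hlt).symm)
      (by linarith)
  · exact uniq_aux hs hb hw hw' h hm1 hm1' hi0 h2 h3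

end Pool.Agent.Q284.InvB
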