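import Pool.Agent.Q284.InvB.Exist
import Pool.Agent.Q284.RevScen

/-!
# Equidistribution of two descent numbers on the involutions of the hyperoctahedral group
-/

namespace Pool.Agent.Q284.InvB

open Finset
open Pool.Agent.Q284.RevScen

/-- The involutions of the hyperoctahedral group `B_n`: signed permutations `w` (bijections of
`{-n,…,-1,1,…,n}` with `w(-a) = -w(a)`) such that `w ∘ w = id`. -/
abbrev InvolB (n : ℕ) : Type := {w : SignedPerm n // ∀ a, w.1 (w.1 a) = a}

/-- The value `w(x)` for an integer `x`, with `w(0) = 0` (and, irrelevantly, `w(x) = x` for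
`|x| > n`). -/
def val {n : ℕ} (w : SignedPerm n) (x : ℤ) : ℤ :=
  if h : x ≠ 0 ∧ |x| ≤ (n : ℤ) then (w.1 ⟨x, h⟩).1 else x

/-- The order `-1 <_r -2 <_r -3 <_r ⋯ <_r 0 <_r 1 <_r 2 <_r ⋯` on the integers: two negative
integers are ordered by increasing absolute value, negative integers lie below the others, the
nonnegative integers keep their usual order. -/
def ltR (a b : ℤ) : Prop := (a < 0 ∧ b < 0 ∧ b < a) ∨ (a < 0 ∧ 0 ≤ b) ∨ (0 ≤ a ∧ 0 ≤ b ∧ a < b)

instance (a b : ℤ) : Decidable (ltR a b) := by unfold ltR; infer_instance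

/-- `{i ∈ {0,…,n-1} : w(i) >_r w(i+1)}`. -/
def DesR {n : ℕ} (w : SignedPerm n) : Finset ℕ :=
  (range n).filter (fun i => ltR (val w ((i : ℤ) + 1)) (val w (i : ℤ)))

/-- `{i ∈ {0,…,n-1} : w(i) > w(i+1)}` for the usual order. -/
def DesC {n : ℕ} (w : SignedPerm n) : Finset ℕ :=
  (range n).filter (fun i => val w ((i : ℤ) + 1) < val w (i : ℤ))

instance (n : ℕ) : Finite (Pt n) := by
  have : Set.Finite {x : ℤ | x ≠ 0 ∧ |x| ≤ (n : ℤ)} :=
    (Set.finite_Icc (-(n : ℤ)) n).subset (by
      rintro x ⟨-, hx⟩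
      exact abs_le.1 hx)
  exact this.to_subtype

noncomputable instance (n : ℕ) : Fintype (InvolB n) := Fintype.ofFinite _

/-! ### Transfer to permutations of `ℤ` -/

variable {n : ℕ} {s : ℤ}

/-- extension to a permutation of `ℤ` -/
def toInt (w : InvolB n) : Equiv.Perm ℤ := Equiv.Perm.ofSubtype w.1.1

theorem toInt_apply (w : InvolB n) (x : ℤ) : toInt w x = val w.1 x := by
  unfold toInt val
  split_ifs with h
  · exact Equiv.Perm.ofSubtype_apply_of_mem w.1.1 h
  · exact Equiv.Perm.ofSubtype_apply_of_not_mem w.1.1 h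

theorem toInt_isB (w : InvolB n) : IsB n (toInt w) := by
  constructor
  · intro x
    rw [toInt_apply, toInt_apply]
    unfold val
    by_cases h : x ≠ 0 ∧ |x| ≤ (n : ℤ)
    · have h' : -x ≠ 0 ∧ |-x| ≤ (n : ℤ) := by rw [abs_neg]; exact ⟨by omega, h.2⟩
      rw [dif_pos h, dif_pos h']
      have := w.1.2 ⟨x, h⟩
      exact congrArg Subtype.val this
    · have h' : ¬ (-x ≠ 0 ∧ |-x| ≤ (n : ℤ)) := by
        rw [abs_neg]; intro h1; exact h ⟨by omega, h1.2⟩
      rw [dif_neg h, dif_neg h']
  · intro x hx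
    rw [toInt_apply]
    unfold val
    rw [dif_neg]
    intro h
    omega

theorem toInt_inv (w : InvolB n) : (toInt w)⁻¹ = toInt w := by
  unfold toInt
  rw [← map_inv]
  congr 1
  ext x
  have : w.1.1⁻¹ x = w.1.1 x := by
    rw [Equiv.Perm.inv_eq_iff_eq, w.2]
  rw [this]

theorem toInt_injective : Function.Injective (toInt (n := n)) := by
  intro w w' h
  unfold toInt at h
  apply Subtype.ext
  apply Subtype.ext
  exact Equiv.Perm.ofSubtype_injective h

theorem toInt_surj {u : Equiv.Perm ℤ} (hu : IsB n u) (hinv : u⁻¹ = u) :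
    ∃ w : InvolB n, toInt w = u := by
  have hne : ∀ x, u x ≠ 0 ↔ x ≠ 0 := by
    intro x
    constructor
    · rintro h rfl
      exact h hu.zero
    · exact hu.ne
  have hle : ∀ x, |u x| ≤ (n : ℤ) ↔ |x| ≤ (n : ℤ) := by
    intro x
    constructor
    · intro h
      have := hu.inv.abs_le h
      simpa using this
    · exact hu.abs_le
  have hp : ∀ x, (u x ≠ 0 ∧ |u x| ≤ (n : ℤ)) ↔ (x ≠ 0 ∧ |x| ≤ (n : ℤ)) := by
    intro x
    rw [hne, hle]
  have huu : ∀ x, u (u x) = x := by
    intro x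
    conv_lhs => rw [← hinv]
    rw [hinv]
    have : u⁻¹ (u x) = x := by simp
    rwa [hinv] at this
  refine ⟨⟨⟨Equiv.Perm.subtypePerm u hp, ?_⟩, ?_⟩, ?_⟩
  · intro x
    apply Subtype.ext
    exact hu.1 x.1
  · intro x
    apply Subtype.ext
    exact huu x.1
  · unfold toInt
    refine Equiv.Perm.ofSubtype_subtypePerm hp ?_
    intro x hx
    constructor
    · rintro rfl
      exact hx hu.zero
    · by_contra h
      push Not at h
      exact hx (hu.2 x h)

/-! ### Descent sets containing a given set -/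

/-- block index -/
noncomputable def blk (n : ℕ) (K : Finset ℕ) (x : ℤ) : ℕ :=
  ((range n).filter (fun k => k ∉ K ∧ (k : ℤ) < x)).card

theorem blk_mono (K : Finset ℕ) : Monotone (blk n K) := by
  intro x y hxy
  unfold blk
  apply card_le_card
  intro k hk
  rw [mem_filter] at hk ⊢
  exact ⟨hk.1, hk.2.1, by omega⟩

theorem blk_succ {K : Finset ℕ} {k : ℕ} (hk : k ∈ K) :
    blk n K (k : ℤ) = blk n K ((k : ℤ) + 1) := by
  unfold blk
  congr 1
  ext l
  rw [mem_filter, mem_filter]
  constructor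
  · rintro ⟨h1, h2, h3⟩
    exact ⟨h1, h2, by omega⟩
  · rintro ⟨h1, h2, h3⟩
    refine ⟨h1, h2, ?_⟩
    have : l ≠ k := by rintro rfl; exact h2 hk
    omega

theorem mem_of_blk {K : Finset ℕ} {i j : ℤ} {k : ℕ} (h : blk n K i = blk n K j)
    (hik : i ≤ k) (hkj : (k : ℤ) < j) (hk : k < n) : k ∈ K := by
  by_contra hK
  have : (range n).filter (fun k => k ∉ K ∧ (k : ℤ) < i) ⊂
      (range n).filter (fun k => k ∉ K ∧ (k : ℤ) < j) := by
    rw [Finset.ssubset_iff_of_subset]
    · refine ⟨k, ?_, ?_⟩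
      · rw [mem_filter, mem_range]
        exact ⟨hk, hK, hkj⟩
      · rw [mem_filter]
        rintro ⟨_, _, h1⟩
        omega
    · intro l hl
      rw [mem_filter] at hl ⊢
      exact ⟨hl.1, hl.2.1, by omega⟩
  have := card_lt_card this
  unfold blk at h
  omega

/-- the common part of the two conditions -/
def Common (K : Finset ℕ) (w : Equiv.Perm ℤ) : Prop :=
  ∀ k ∈ K, (w (k : ℤ) ≤ 0 → w ((k : ℤ) + 1) < 0) ∧
    (0 < w (k : ℤ) → 0 < w ((k : ℤ) + 1) → w ((k : ℤ) + 1) < w (k : ℤ))

/-- the part which differs -/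
def NegPart (K : Finset ℕ) (s : ℤ) (w : Equiv.Perm ℤ) : Prop :=
  ∀ k ∈ K, w (k : ℤ) < 0 → w ((k : ℤ) + 1) < 0 → 0 < s * (w (k : ℤ) - w ((k : ℤ) + 1))

theorem common_rel {b : ℤ → ℕ} {K : Finset ℕ} {w w' : Equiv.Perm ℤ} (hw : IsB n w)
    (hw' : IsB n w') (h : Rel n b w w') (hc : Common K w) : Common K w' := by
  intro k hk
  obtain ⟨h1, h2⟩ := hc k hk
  have hsy := h.symm hw
  refine ⟨fun h3 => ?_, fun h3 h4 => ?_⟩
  · apply h.neg _ (by omega)
    apply h1
    rcases Nat.eq_zero_or_pos k with h0 | h0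
    · subst h0
      simp [hw.zero]
    · by_contra hcon
      push Not at hcon
      have := h.pos k (by omega) hcon
      omega
  · rcases Nat.eq_zero_or_pos k with h0 | h0
    · subst h0
      simp [hw'.zero] at h3
    · have e1 := hsy.pos k (by omega) h3
      have e2 := hsy.pos (k + 1) (by omega) h4
      rw [← e1, ← e2]
      rw [← e1] at h3
      rw [← e2] at h4
      exact h2 h3 h4

theorem negPart_iff {K : Finset ℕ} {w : Equiv.Perm ℤ} (hs : s = 1 ∨ s = -1) (hw : IsB n w)
    (hc : Common K w) : NegPart K s w ↔ Mon (blk n K) s w := by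
  constructor
  · intro h i j hi hij hwi hwj hb
    have hjn : j ≤ n := hw.le (by omega) hwj
    obtain ⟨i', hi'⟩ := Int.eq_ofNat_of_zero_le hi.le
    obtain ⟨d, hd⟩ := Int.eq_ofNat_of_zero_le (show 0 ≤ j - i - 1 by omega)
    -- chain
    have key : ∀ e : ℕ, (i : ℤ) + e + 1 ≤ j → w (i + e + 1) < 0 ∧ 0 < s * (w i - w (i + e + 1)) := by
      intro e
      induction e with
      | zero =>
        intro he
        have hK : i' ∈ K := mem_of_blk hb (by omega) (by omega) (by omega)
        have h1 := (hc i' hK).1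
        have h2 := h i' hK
        rw [← show i = (i' : ℤ) from hi'] at h1 h2
        have h3 := h1 hwi.le
        have h4 := h2 hwi h3
        simpa using ⟨h3, h4⟩
      | succ e ih =>
        intro he
        obtain ⟨g1, g2⟩ := ih (by push_cast at he; omega)
        have hK : i' + e + 1 ∈ K :=
          mem_of_blk hb (by push_cast; omega) (by push_cast at he ⊢; omega)
            (by push_cast at he; omega)
        have h1 := (hc _ hK).1
        have h2 := h _ hK
        have e1 : ((i' + e + 1 : ℕ) : ℤ) = i + e + 1 := by push_cast; omega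
        rw [e1] at h1 h2
        have h3 := h1 g1.le
        have h4 := h2 g1 h3
        have e2 : i + ((e + 1 : ℕ) : ℤ) + 1 = i + e + 1 + 1 := by push_cast; ring
        rw [e2]
        refine ⟨h3, ?_⟩
        have : s * (w i - w (i + e + 1 + 1)) =
          s * (w i - w (i + e + 1)) + s * (w (i + e + 1) - w (i + e + 1 + 1)) := by ring
        rw [this]
        omega
    have := (key d (by omega)).2
    rwa [show i + (d : ℤ) + 1 = j by omega] at this
  · intro h k hk h1 h2
    rcases Nat.eq_zero_or_pos k with h0 | h0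
    · subst h0
      simp [hw.zero] at h1
    · exact h k (k + 1) (by omega) (by omega) h1 h2 (blk_succ hk)

theorem subset_DesC {K : Finset ℕ} (hK : K ⊆ range n) (w : InvolB n) :
    K ⊆ DesC w.1 ↔ Common K (toInt w) ∧ NegPart K 1 (toInt w) := by
  unfold DesC Common NegPart
  have h0 : ∀ k : ℕ, toInt w ((k : ℤ) + 1) ≠ 0 := fun k => (toInt_isB w).ne (by omega)
  simp only [← toInt_apply]
  constructor
  · intro h
    have h' : ∀ k ∈ K, toInt w ((k : ℤ) + 1) < toInt w (k : ℤ) := fun k hk =>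
      (mem_filter.1 (h hk)).2
    refine ⟨fun k hk => ⟨fun h1 => ?_, fun h1 h2 => h' k hk⟩, fun k hk h1 h2 => ?_⟩
    · have := h' k hk; omega
    · have := h' k hk; omega
  · rintro ⟨h1, h2⟩ k hk
    rw [mem_filter]
    refine ⟨hK hk, ?_⟩
    have g1 := (h1 k hk).1
    have g2 := (h1 k hk).2
    have g3 := h2 k hk
    have g0 := h0 k
    omega

theorem subset_DesR {K : Finset ℕ} (hK : K ⊆ range n) (w : InvolB n) :
    K ⊆ DesR w.1 ↔ Common K (toInt w) ∧ NegPart K (-1) (toInt w) := by
  unfold DesR Common NegPart ltR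
  have h0 : ∀ k : ℕ, toInt w ((k : ℤ) + 1) ≠ 0 := fun k => (toInt_isB w).ne (by omega)
  simp only [← toInt_apply]
  constructor
  · intro h
    have h' := fun k (hk : k ∈ K) => (mem_filter.1 (h hk)).2
    refine ⟨fun k hk => ⟨fun h1 => ?_, fun h1 h2 => ?_⟩, fun k hk h1 h2 => ?_⟩
    · have := h' k hk
      have := h0 k
      omega
    · have := h' k hk; omega
    · have := h' k hk; omega
  · rintro ⟨h1, h2⟩ k hk
    rw [mem_filter]
    refine ⟨hK hk, ?_⟩
    have g1 := (h1 k hk).1
    have g2 := (h1 k hk).2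
    have g3 := h2 k hk
    have g0 := h0 k
    omega

theorem card_le_aux (K : Finset ℕ) (hs : s = 1 ∨ s = -1) :
    Nat.card {w : InvolB n // Common K (toInt w) ∧ NegPart K s (toInt w)} ≤
      Nat.card {w : InvolB n // Common K (toInt w) ∧ NegPart K (-s) (toInt w)} := by
  have hs' : -s = 1 ∨ -s = -1 := by omega
  have hex : ∀ w : {w : InvolB n // Common K (toInt w) ∧ NegPart K s (toInt w)},
      ∃ w' : {w : InvolB n // Common K (toInt w) ∧ NegPart K (-s) (toInt w)},
        Rel n (blk n K) (toInt w.1) (toInt w'.1) := by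
    rintro ⟨w, hw1, hw2⟩
    obtain ⟨u, h1, h2, h3, h4⟩ := exists_mon_invol (b := blk n K) hs' (blk_mono K)
      (toInt_isB w) (toInt_inv w)
    obtain ⟨w', rfl⟩ := toInt_surj h1 h2
    have hc := common_rel (toInt_isB w) (toInt_isB w') h3 hw1
    exact ⟨⟨w', hc, (negPart_iff hs' (toInt_isB w') hc).2 h4⟩, h3⟩
  choose f hf using hex
  apply Nat.card_le_card_of_injective f
  intro w1 w2 h12
  have h1 := hf w1
  have h2 := hf w2
  rw [h12] at h1
  have h3 := h1.trans (h2.symm (toInt_isB w2.1))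
  have m1 := (negPart_iff hs (toInt_isB w1.1) w1.2.1).1 w1.2.2
  have m2 := (negPart_iff hs (toInt_isB w2.1) w2.2.1).1 w2.2.2
  apply Subtype.ext
  apply toInt_injective
  exact uniq hs (blk_mono K) (toInt_isB w1.1) (toInt_isB w2.1) h3 m1
    (by rw [toInt_inv]; exact m1) m2 (by rw [toInt_inv]; exact m2)

theorem card_eq {K : Finset ℕ} (hK : K ⊆ range n) :
    Nat.card {w : InvolB n // K ⊆ DesR w.1} = Nat.card {w : InvolB n // K ⊆ DesC w.1} := by
  simp only [subset_DesC hK, subset_DesR hK]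
  apply le_antisymm
  · have := card_le_aux (n := n) (s := -1) K (Or.inr rfl)
    rwa [neg_neg] at this
  · exact card_le_aux (n := n) (s := 1) K (Or.inl rfl)

/-! ### Generating functions -/

open Polynomial in
theorem gen {ι : Type} [Fintype ι] (D : ι → Finset ℕ) (n : ℕ) (hD : ∀ w, D w ⊆ range n) :
    (∑ w, (X : ℤ[X]) ^ (D w).card) =
      ∑ K ∈ (range n).powerset, (X - 1) ^ K.card * (Nat.card {w // K ⊆ D w} : ℤ[X]) := by
  classical
  have h1 : ∀ w, (X : ℤ[X]) ^ (D w).card =
      ∑ K ∈ (range n).powerset, if K ⊆ D w then (X - 1) ^ K.card else 0 := by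
    intro w
    have := Finset.sum_pow_mul_eq_add_pow (X - 1 : ℤ[X]) 1 (D w)
    rw [sub_add_cancel] at this
    rw [← this, ← Finset.sum_filter]
    have h2 : (range n).powerset.filter (fun K => K ⊆ D w) = (D w).powerset := by
      ext K
      rw [mem_filter, mem_powerset, mem_powerset]
      exact ⟨fun h => h.2, fun h => ⟨h.trans (hD w), h⟩⟩
    rw [h2]
    apply Finset.sum_congr rfl
    intro K _
    rw [one_pow, mul_one]
  simp only [h1]
  rw [Finset.sum_comm]
  apply Finset.sum_congr rfl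
  intro K _
  rw [← Finset.sum_filter, Finset.sum_const, nsmul_eq_mul, mul_comm]
  congr 2
  rw [Nat.card_eq_fintype_card, Fintype.card_subtype]

open Polynomial in
theorem coeff_gen {ι : Type} [Fintype ι] (f : ι → ℕ) (k : ℕ) :
    (∑ w, (X : ℤ[X]) ^ (f w)).coeff k = (Nat.card {w // f w = k} : ℤ) := by
  classical
  rw [finset_sum_coeff]
  simp only [coeff_X_pow]
  rw [Nat.card_eq_fintype_card, Fintype.card_subtype, ← Finset.sum_filter]
  simp only [Finset.sum_const, nsmul_eq_mul, mul_one]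
  congr 2
  ext w
  simp [eq_comm]

end Pool.Agent.Q284.InvB
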