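import Pool.Agent.Q284.InvB.Cell

/-!
# Existence of the monotone representative
-/

namespace Pool.Agent.Q284.InvB

open Finset

variable {n : ℕ} {w w' w'' v v' : Equiv.Perm ℤ} {b : ℤ → ℕ} {s : ℤ}

theorem IsB.abs_le (h : IsB n w) {x : ℤ} (hx : |x| ≤ n) : |w x| ≤ n := by
  by_contra hlt
  push Not at hlt
  have h1 := h.2 (w x) hlt
  have h2 := w.injective h1
  rw [h2] at hlt
  omega

/-- the potential -/
noncomputable def Phi (n : ℕ) (w : Equiv.Perm ℤ) : ℤ :=
  ∑ k ∈ (Icc (1 : ℤ) n).filter (fun k => w k < 0), k * (-(w k))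

theorem Phi_bound (h : IsB n w) : |Phi n w| ≤ (n : ℤ) * (n * n) := by
  unfold Phi
  refine (Finset.abs_sum_le_sum_abs _ _).trans ?_
  have h1 : ∀ k ∈ (Icc (1 : ℤ) n).filter (fun k => w k < 0), |k * (-(w k))| ≤ (n : ℤ) * n := by
    intro k hk
    rw [mem_filter, mem_Icc] at hk
    rw [abs_mul, abs_neg]
    have h2 : |k| ≤ n := by rw [_root_.abs_le]; omega
    exact mul_le_mul h2 (h.abs_le h2) (abs_nonneg _) (by positivity)
  refine (Finset.sum_le_card_nsmul _ _ _ h1).trans ?_
  rw [nsmul_eq_mul]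
  have h3 : ((Icc (1 : ℤ) n).filter (fun k => w k < 0)).card ≤ n := by
    refine (Finset.card_filter_le _ _).trans ?_
    simp
  have h4 : (0 : ℤ) ≤ (n : ℤ) * n := by positivity
  exact mul_le_mul_of_nonneg_right (by exact_mod_cast h3) h4

/-- `k ↦ -w k` maps negative positions of `w` to those of `w⁻¹` -/
theorem inv_mem (h : IsB n w) {k : ℤ} (hk : k ∈ (Icc (1 : ℤ) n).filter (fun k => w k < 0)) :
    -(w k) ∈ (Icc (1 : ℤ) n).filter (fun k => w⁻¹ k < 0) ∧ w⁻¹ (-(w k)) = -k := by
  rw [mem_filter, mem_Icc] at hk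
  have h1 : w⁻¹ (-(w k)) = -k := by
    rw [Equiv.Perm.inv_eq_iff_eq, h.1]
  have h2 : |w k| ≤ n := h.abs_le (by rw [_root_.abs_le]; omega)
  rw [_root_.abs_le] at h2
  refine ⟨?_, h1⟩
  rw [mem_filter, mem_Icc, h1]
  omega

theorem Phi_inv (h : IsB n w) : Phi n w⁻¹ = Phi n w := by
  symm
  unfold Phi
  refine Finset.sum_nbij' (fun k => -(w k)) (fun k => -(w⁻¹ k)) ?_ ?_ ?_ ?_ ?_
  · intro k hk
    exact (inv_mem h hk).1
  · intro k hk
    have := (inv_mem h.inv hk).1
    rwa [inv_inv] at this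
  · intro k hk
    have := (inv_mem h hk).2
    simp only [this]
    omega
  · intro k hk
    have := (inv_mem h.inv hk).2
    rw [inv_inv] at this
    simp only [this]
    omega
  · intro k hk
    have := (inv_mem h hk).2
    simp only [this]
    ring

theorem cc_inv (h : IsB n w) (p q : ℕ) : cc n b w⁻¹ p q = cc n b w q p := by
  symm
  unfold cc
  have key : ∀ {u : Equiv.Perm ℤ} {p q : ℕ} {k : ℤ}, IsB n u →
      k ∈ (Icc (1 : ℤ) n).filter (fun i => u i < 0 ∧ b i = q ∧ b (-(u i)) = p) →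
      -(u k) ∈ (Icc (1 : ℤ) n).filter (fun i => u⁻¹ i < 0 ∧ b i = p ∧ b (-(u⁻¹ i)) = q) ∧
      u⁻¹ (-(u k)) = -k := by
    intro u p q k hu hk
    rw [mem_filter] at hk
    have := inv_mem hu (k := k) (by rw [mem_filter]; exact ⟨hk.1, hk.2.1⟩)
    rw [mem_filter] at this
    refine ⟨?_, this.2⟩
    rw [mem_filter]
    refine ⟨this.1.1, this.1.2, hk.2.2.2, ?_⟩
    rw [this.2, neg_neg]
    exact hk.2.2.1
  refine Finset.card_nbij' (fun k => -(w k)) (fun k => -(w⁻¹ k)) ?_ ?_ ?_ ?_
  · intro k hk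
    exact (key h hk).1
  · intro k hk
    have := (key (p := q) (q := p) h.inv hk).1
    rw [inv_inv] at this
    exact this
  · intro k hk
    have := (key h hk).2
    simp only [this]
    omega
  · intro k hk
    have := (key (p := q) (q := p) h.inv hk).2
    rw [inv_inv] at this
    simp only [this]
    omega

theorem Rel.inv (hw : IsB n w) (hw' : IsB n w') (h : Rel n b w w') : Rel n b w⁻¹ w'⁻¹ := by
  refine ⟨fun m hm hwm => ?_, fun m hm hwm => ?_, fun p q => ?_⟩
  · have h1 : w (w⁻¹ m) = m := by simp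
    have h2 := h.pos (w⁻¹ m) hwm (by rw [h1]; exact hm)
    rw [h1] at h2
    rw [Equiv.Perm.inv_eq_iff_eq, h2]
  · by_contra hcon
    push Not at hcon
    have h1 : w' (w'⁻¹ m) = m := by simp
    have h0 : w'⁻¹ m ≠ 0 := hw'.inv.ne (by omega)
    have h2 := (h.symm hw).pos (w'⁻¹ m) (by omega) (by rw [h1]; exact hm)
    rw [h1] at h2
    have h3 : w⁻¹ m = w'⁻¹ m := by rw [Equiv.Perm.inv_eq_iff_eq, h2]
    omega
  · rw [cc_inv hw, cc_inv hw', h.cell]

theorem tr_mem {i j k : ℤ} (hi : 0 < i) (hj : 0 < j) (hk : 0 < k) (hin : i ≤ n) (hjn : j ≤ n)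
    (hkn : k ≤ n) : 0 < tr i j k ∧ tr i j k ≤ n := by
  rw [tr_apply hi hj]
  split_ifs <;> omega

theorem tr_tr {i j : ℤ} (hi : 0 < i) (hj : 0 < j) (k : ℤ) : tr i j (tr i j k) = k := by
  rw [tr_apply hi hj, tr_apply hi hj]
  split_ifs <;> omega

theorem step (hv : IsB n v) (hm : ¬ Mon b s v) (hs : s = 1 ∨ s = -1) :
    ∃ v', IsB n v' ∧ Rel n b v v' ∧ s * Phi n v < s * Phi n v' := by
  unfold Mon at hm
  push Not at hm
  obtain ⟨i, j, hi, hij, hvi, hvj, hb, hle⟩ := hm
  have hj : 0 < j := by omega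
  have hin := hv.le hi hvi
  have hjn := hv.le hj hvj
  have hne : v i ≠ v j := fun h => by have := v.injective h; omega
  have hlt : s * (v i - v j) < 0 := by
    rcases hs with rfl | rfl
    · have : v i - v j ≠ 0 := by omega
      omega
    · have : v i - v j ≠ 0 := by omega
      omega
  have htr : IsB n (tr i j) := tr_isB hi hj hin hjn
  have hneg : ∀ k, 0 < k → (v (tr i j k) < 0 ↔ v k < 0) := by
    intro k hk
    rw [tr_apply hi hj]
    split_ifs with h1 h2 h3 h4
    · subst h1; simp [hvi, hvj]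
    · subst h2; simp [hvi, hvj]
    · omega
    · omega
    · rfl
  have hbtr : ∀ k, 0 < k → b (tr i j k) = b k := by
    intro k hk
    rw [tr_apply hi hj]
    split_ifs with h1 h2 h3 h4
    · subst h1; exact hb.symm
    · subst h2; exact hb
    · omega
    · omega
    · rfl
  refine ⟨v * tr i j, hv.mul htr, ⟨?_, ?_, ?_⟩, ?_⟩
  · intro k hk hvk
    rw [Equiv.Perm.mul_apply, tr_apply hi hj]
    split_ifs with h1 h2 h3 h4
    · subst h1; omega
    · subst h2; omega
    · omega
    · omega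
    · rfl
  · intro k hk hvk
    rw [Equiv.Perm.mul_apply]
    exact (hneg k hk).2 hvk
  · intro p q
    unfold cc
    refine Finset.card_nbij' (fun k => tr i j k) (fun k => tr i j k) ?_ ?_ ?_ ?_
    · intro k hk
      rw [mem_coe, mem_filter, mem_Icc] at hk ⊢
      have h1 := tr_mem (n := n) hi hj (show 0 < k by omega) hin hjn (by omega)
      simp only [Equiv.Perm.mul_apply, tr_tr hi hj]
      refine ⟨by omega, hk.2.1, ?_, hk.2.2.2⟩
      rw [hbtr k (by omega)]
      exact hk.2.2.1
    · intro k hk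
      rw [mem_coe, mem_filter, mem_Icc] at hk ⊢
      have h1 := tr_mem (n := n) hi hj (show 0 < k by omega) hin hjn (by omega)
      simp only [Equiv.Perm.mul_apply] at hk
      beta_reduce
      refine ⟨by omega, hk.2.1, ?_, hk.2.2.2⟩
      rw [hbtr k (by omega)]
      exact hk.2.2.1
    · intro k _
      exact tr_tr hi hj k
    · intro k _
      exact tr_tr hi hj k
  · -- the potential increases
    have h1 : Phi n (v * tr i j) =
        ∑ k ∈ (Icc (1 : ℤ) n).filter (fun k => v k < 0), tr i j k * (-(v k)) := by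
      unfold Phi
      refine Finset.sum_nbij' (fun k => tr i j k) (fun k => tr i j k) ?_ ?_ ?_ ?_ ?_
      · intro k hk
        rw [mem_filter, mem_Icc] at hk ⊢
        have h1 := tr_mem (n := n) hi hj (show 0 < k by omega) hin hjn (by omega)
        rw [Equiv.Perm.mul_apply] at hk
        exact ⟨by omega, hk.2⟩
      · intro k hk
        rw [mem_filter, mem_Icc] at hk ⊢
        have h1 := tr_mem (n := n) hi hj (show 0 < k by omega) hin hjn (by omega)
        rw [Equiv.Perm.mul_apply, tr_tr hi hj]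
        exact ⟨by omega, hk.2⟩
      · intro k _
        exact tr_tr hi hj k
      · intro k _
        exact tr_tr hi hj k
      · intro k _
        rw [Equiv.Perm.mul_apply, tr_tr hi hj]
    have h2 : Phi n (v * tr i j) - Phi n v = (j - i) * (v j - v i) := by
      rw [h1]
      unfold Phi
      rw [← Finset.sum_sub_distrib]
      rw [Finset.sum_eq_add_of_mem i j]
      · have e1 : tr i j i = j := by rw [tr_apply hi hj]; simp
        have e2 : tr i j j = i := by
          rw [tr_apply hi hj]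
          split_ifs <;> omega
        rw [e1, e2]
        ring
      · rw [mem_filter, mem_Icc]; omega
      · rw [mem_filter, mem_Icc]; omega
      · omega
      · intro k hk hkij
        rw [mem_filter, mem_Icc] at hk
        have e : tr i j k = k := by
          rw [tr_apply hi hj]
          split_ifs <;> omega
        rw [e]
        ring
    have h3 : s * Phi n (v * tr i j) - s * Phi n v = (j - i) * (-(s * (v i - v j))) := by
      rw [← mul_sub, h2]; ring
    have h4 : 0 < (j - i) * (-(s * (v i - v j))) := by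
      apply mul_pos
      · omega
      · omega
    omega

theorem exists_mon (hs : s = 1 ∨ s = -1) (hw : IsB n w) :
    ∃ w', IsB n w' ∧ Rel n b w w' ∧ Mon b s w' ∧ Mon b s w'⁻¹ := by
  obtain ⟨m, ⟨w', h1, h2, h3⟩, hmax⟩ := Int.exists_greatest_of_bdd
    (P := fun m => ∃ w', IsB n w' ∧ Rel n b w w' ∧ s * Phi n w' = m)
    ⟨(n : ℤ) * (n * n), by
      rintro z ⟨w', h1, -, rfl⟩
      have := Phi_bound h1
      rw [_root_.abs_le] at this
      rcases hs with rfl | rfl
      · omega
      · omega⟩ ⟨s * Phi n w, w, hw, Rel.refl, rfl⟩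
  refine ⟨w', h1, h2, ?_, ?_⟩
  · by_contra hm
    obtain ⟨v', g1, g2, g3⟩ := step h1 hm hs
    have := hmax _ ⟨v', g1, h2.trans g2, rfl⟩
    omega
  · by_contra hm
    obtain ⟨v', g1, g2, g3⟩ := step h1.inv hm hs
    rw [Phi_inv h1] at g3
    have g4 := Rel.inv h1.inv g1 g2
    rw [inv_inv] at g4
    have := hmax _ ⟨v'⁻¹, g1.inv, h2.trans g4, rfl⟩
    rw [Phi_inv g1] at this
    omega

/-- For an involution the monotone representative is an involution. -/
theorem exists_mon_invol (hs : s = 1 ∨ s = -1) (hb : Monotone b) (hw : IsB n w)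
    (hinv : w⁻¹ = w) : ∃ w', IsB n w' ∧ w'⁻¹ = w' ∧ Rel n b w w' ∧ Mon b s w' := by
  obtain ⟨w', h1, h2, h3, h4⟩ := exists_mon (b := b) hs hw
  have h5 : Rel n b w w'⁻¹ := by
    have := Rel.inv hw h1 h2
    rwa [hinv] at this
  have h6 : Rel n b w'⁻¹ w' := (h5.symm hw).trans h2
  refine ⟨w', h1, ?_, h2, h3⟩
  exact uniq hs hb h1.inv h1 h6 h4 (by rwa [inv_inv]) h3 h4

end Pool.Agent.Q284.InvB
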